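import Pool.Agent.R225.LP.Fin2
import Pool.Agent.R225.LP.AJ

set_option autoImplicit false

/-!
# One can hear the least distance between two non-adjacent sides of a convex polygon

Let `P` be a convex polygon with at least four vertices, area `A`, perimeter `L` and angles `αⱼ`, let
`d` be the least distance between two sides of `P` which are not adjacent, and let

`R(t) = 4πt Σ exp(-λₖ t) - A + L √(πt) / 2 - 4πt Σ (π² - αⱼ²) / (24 π αⱼ)`

be the remainder of its heat trace (`λₖ` are the Dirichlet eigenvalues). Then `R(t) > 0` for small `t`
and `-t log R(t) → d²` as `t → 0`. For triangles `R(t) ≤ 0`. Hence a convex polygon isospectral to `P`,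
up to finitely many eigenvalues, has at least four vertices, the same `d`, and at most `L / d`
vertices.

Main idea: `R(t)` is the expectation, over the Brownian loops `X` of duration `t`, of the difference
`D(X)` between the area of the set of positions of the loop inside `P` and a quadratic polynomial in
the extents of the loop. If the loop fits into `P`, then `0 ≤ D(X)`, and `D(X) > 0` only if the loop
makes a side disappear, which needs an extent at least `d` in some direction; the shortest such loop
has length `2 d`. Loops which do not fit into `P` are at least as rare.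
-/

open MeasureTheory Set Filter Topology Complex
open Pool.Agent.W780.PG (IsConvexPolygon region ang)
open Pool.Agent.W703.GP (dirichletEigenvalue)
open scoped Real

namespace Pool.Agent.Results.MP_c1b9d3_an.LeastDistanceOfSides

/-- The least distance between two non-adjacent sides of the polygon with the vertices
`p 0, p 1, …` (its side number `i` is the segment from `p i` to `p (i + 1)`, indices modulo the
number of vertices). -/
noncomputable def leastDistance {n : ℕ} (p : Fin (n + 3) → ℂ) : ℝ :=
  sInf {r : ℝ | ∃ i j : Fin (n + 3), j ≠ i ∧ j ≠ i + 1 ∧ i ≠ j + 1 ∧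
    ∃ x ∈ segment ℝ (p i) (p (i + 1)), ∃ y ∈ segment ℝ (p j) (p (j + 1)), r = dist x y}

/-- The perimeter. -/
noncomputable def perimeter {n : ℕ} (p : Fin (n + 3) → ℂ) : ℝ := ∑ i, ‖p (i + 1) - p i‖

/-- The remainder of the heat trace. -/
noncomputable def remainder {n : ℕ} (p : Fin (n + 3) → ℂ) (t : ℝ) : ℝ :=
  4 * π * t * (∑' k : ℕ, Real.exp (-(t * dirichletEigenvalue (region p) (k + 1)))) -
    (volume (region p)).toReal + √t * (√π / 2 * perimeter p) -
    t * (4 * π * ∑ j, (π ^ 2 - ang p j ^ 2) / (24 * π * ang p j))

/-- Let `p` list the vertices of a convex polygon with at least four vertices and let `d` be the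
least distance between two of its sides which are not adjacent. Then `d > 0`, the remainder `R(t)`
of the heat trace is positive for small `t`, and `-t log R(t) → d ^ 2` as `t → 0`. Every convex
polygon (vertices listed by `q`) with the same Dirichlet eigenvalues, up to finitely many, has at
least four vertices, the same least distance `d` and at most `perimeter / d` vertices. -/
theorem result {n : ℕ} (p : Fin (n + 1 + 3) → ℂ) (hp : IsConvexPolygon p) :
    0 < leastDistance p ∧ (∀ᶠ t in 𝓝[>] (0 : ℝ), 0 < remainder p t) ∧
    Tendsto (fun t : ℝ => -(t * Real.log (remainder p t))) (𝓝[>] 0) (𝓝 (leastDistance p ^ 2)) ∧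
    ∀ (m : ℕ) (q : Fin (m + 3) → ℂ), IsConvexPolygon q →
      (∀ᶠ k in atTop, dirichletEigenvalue (region p) k = dirichletEigenvalue (region q) k) →
      1 ≤ m ∧ leastDistance q = leastDistance p ∧ (m + 3) * leastDistance p ≤ perimeter p := by
  obtain ⟨h1, h2⟩ := Pool.Agent.R225.LP.remainder_log p hp
  exact ⟨(Pool.Agent.R225.LP.nb n p hp).1, h1, h2, fun m q hq h =>
    Pool.Agent.R225.LP.least_distance p q hp hq (Pool.Agent.R225.LP.almost hp hq h)⟩

end Pool.Agent.Results.MP_c1b9d3_an.LeastDistanceOfSides
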